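import Pool.Agent.Helper54.R1.Goals

set_option autoImplicit false

/-! # Region R1: packet V (vertical pair inequality) -/

namespace Pool.Agent.Helper61.R1

open Real Pool.Agent.Helper66.Kiss Pool.Agent.Helper54.R1

theorem v : Pool.Agent.Helper54.R1.V_stmt := by
  intro ε e a b h0 h1 h2 hg
  rw [abs_le] at h2
  obtain ⟨h2a, h2b⟩ := h2
  unfold gg at hg
  have hA : 0 ≤ 1 - (1 / 2 - ε) ^ 2 := by nlinarith
  have hB : 0 ≤ 1 - (-1 / 2 - e) ^ 2 := by nlinarith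
  have hP1 := Real.sq_sqrt hA
  have hP2 := Real.sq_sqrt hB
  have hP10 := Real.sqrt_nonneg (1 - (1 / 2 - ε) ^ 2)
  have hP20 := Real.sqrt_nonneg (1 - (-1 / 2 - e) ^ 2)
  have hc := Real.one_sub_sq_div_two_le_cos (x := a - b)
  set P1 := √(1 - (1 / 2 - ε) ^ 2) with hP1d
  set P2 := √(1 - (-1 / 2 - e) ^ 2) with hP2d
  set t := a - b with ht
  obtain ⟨P, hP⟩ : ∃ P, P = P1 * P2 := ⟨_, rfl⟩
  rw [← hP] at hg
  have hP0 : 0 ≤ P := by rw [hP]; exact mul_nonneg hP10 hP20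
  have hPsq : P ^ 2 = (3 / 4 + ε - ε ^ 2) * (3 / 4 - e - e ^ 2) := by
    rw [hP, mul_pow, hP1, hP2]; ring
  have hPle : P ^ 2 ≤ 585 / 1000 := by
    rw [hPsq]
    have x1 : 3 / 4 + ε - ε ^ 2 ≤ 195 / 256 := by nlinarith
    have x2 : 3 / 4 - e - e ^ 2 ≤ 195 / 256 := by nlinarith
    have x3 : 0 ≤ 3 / 4 - e - e ^ 2 := by nlinarith
    have x4 := mul_le_mul x1 x2 x3 (by norm_num : (0 : ℝ) ≤ 195 / 256)
    refine x4.trans (by norm_num)
  obtain ⟨N, hN⟩ : ∃ N, N = 1 / 2 - (1 / 2 - ε) * (-1 / 2 - e) := ⟨_, rfl⟩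
  have hN0 : 0 < N := by rw [hN]; nlinarith
  have hPN : P - N ≤ P * (t ^ 2 / 2) := by
    have h3 := mul_le_mul_of_nonneg_left hc hP0
    have h4 : P * cos t ≤ N := by rw [hN]; linarith
    nlinarith
  have hQ : P ^ 2 - N ^ 2 = 3 / 2 * (ε - e) - (ε ^ 2 + e ^ 2 - ε * e) := by
    rw [hPsq, hN]; ring
  by_cases hQ0 : P ^ 2 - N ^ 2 ≤ 0
  · have ht2 := sq_nonneg t
    linarith
  · push Not at hQ0
    have hPN2 : N < P := lt_of_pow_lt_pow_left₀ 2 hP0 (by linarith)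
    have h5 : (P - N) * (P + N) ≤ (P * (t ^ 2 / 2)) * (P + N) :=
      mul_le_mul_of_nonneg_right hPN (by linarith)
    have h6 : (P * (t ^ 2 / 2)) * (P + N) ≤ (P * (t ^ 2 / 2)) * (2 * P) :=
      mul_le_mul_of_nonneg_left (by linarith) (by positivity)
    have h7 : (P * (t ^ 2 / 2)) * (2 * P) = P ^ 2 * t ^ 2 := by ring
    have h8 : P ^ 2 * t ^ 2 ≤ 585 / 1000 * t ^ 2 := mul_le_mul_of_nonneg_right hPle (sq_nonneg t)
    have h9 : P ^ 2 - N ^ 2 = (P - N) * (P + N) := by ring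
    linarith

end Pool.Agent.Helper61.R1
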