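import Pool.Agent.Helper54.R1.Goals

set_option autoImplicit false

/-! # Region R1: packet S (`S'` against one lower point) -/

namespace Pool.Agent.Helper61.R1

open Real Pool.Agent.Helper66.Kiss Pool.Agent.Helper54.R1

theorem s : Pool.Agent.Helper54.R1.S_stmt := by
  intro zs e a b h0 h1 h2 hg
  rw [abs_le] at h2
  obtain ⟨h2a, h2b⟩ := h2
  unfold gg at hg
  have hA : 0 ≤ 1 - zs ^ 2 := by nlinarith
  have hB : 0 ≤ 1 - (-1 / 2 - e) ^ 2 := by nlinarith
  have hd := Real.sq_sqrt hA
  have hc := Real.sq_sqrt hB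
  have hd0 := Real.sqrt_nonneg (1 - zs ^ 2)
  have hc0 := Real.sqrt_nonneg (1 - (-1 / 2 - e) ^ 2)
  set d := √(1 - zs ^ 2) with hdd
  set c := √(1 - (-1 / 2 - e) ^ 2) with hcd
  obtain ⟨s, hs⟩ : ∃ s, s = 1 + zs := ⟨_, rfl⟩
  have hzs : zs = s - 1 := by linarith
  rw [hzs] at hd
  have hs0 : 0 ≤ s := by linarith
  have hs1 : s ≤ 1 / 16 := by linarith
  have hds : d ^ 2 = s * (2 - s) := by rw [hd]; ring
  have hsd : s ≤ 16 / 31 * d ^ 2 := by rw [hds]; nlinarith
  have hg2 : d * c * cos (a - b) + e * (1 - s) ≤ s / 2 := by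
    rw [hzs] at hg
    nlinarith
  have hc1 : 858 / 1000 ≤ c := by
    by_contra hcon
    push Not at hcon
    nlinarith
  have hc2 : c ≤ 873 / 1000 := by
    by_contra hcon
    push Not at hcon
    nlinarith
  have hdc : 0 ≤ d * c := mul_nonneg hd0 hc0
  constructor
  · intro hcos
    have hd1 : d ≤ 35 / 100 := by
      by_contra hcon
      push Not at hcon
      nlinarith
    have k1 : d * c * (51 / 100) ≤ d * c * cos (a - b) := mul_le_mul_of_nonneg_left hcos hdc
    have k2 : d * (858 / 1000) ≤ d * c := mul_le_mul_of_nonneg_left hc1 hd0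
    have k3 : d * (4375 / 10000 - 8 / 31 * d) ≤ -e * (1 - s) := by nlinarith
    have k4 : 347 / 1000 * d ≤ -e * (1 - s) := by nlinarith
    have k5 : 0 ≤ -e := by
      by_contra hcon
      push Not at hcon
      nlinarith
    have k6 : -e * (1 - s) ≤ -e := by nlinarith
    have k7 : d ≤ 34 / 1000 := by nlinarith
    nlinarith
  · intro hd1
    have hcos := Real.neg_one_le_cos (a - b)
    have k1 : d * c * (-1) ≤ d * c * cos (a - b) := mul_le_mul_of_nonneg_left hcos hdc
    have k2 : d * c ≤ d * (873 / 1000) := mul_le_mul_of_nonneg_left hc2 hd0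
    have k3 : e * (1 - s) ≤ 8834 / 10000 * d := by nlinarith
    have k4 : s ≤ 9 / 10000 := by nlinarith
    by_cases he : e ≤ 0
    · nlinarith
    · push Not at he
      nlinarith

end Pool.Agent.Helper61.R1
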